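import Pool.Agent.W603.BP.PSMain

/-!
Closed subvarieties of `B × G_m^n` for a quasi-projective variety `B`: definitions.
-/

set_option autoImplicit false

namespace Pool.Agent.W603.BT

open MvPolynomial Filter Metric Topology Pool.Agent.W603.BP

variable {m n : ℕ} {ι κ τ : Type}

/-- The value of `G`, a polynomial in `u_0, …, u_{n-1}` whose coefficients are polynomials in
`y_0, …, y_m`, at `x = (y, u)`. -/
noncomputable def val (x : (Fin (m + 1) → ℂ) × (Fin n → ℂ))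
    (G : MvPolynomial (Fin n) (MvPolynomial (Fin (m + 1)) ℂ)) : ℂ :=
  eval₂ (eval x.1) x.2 G

/-- All coefficients of `G` are forms of degree `d` in `y_0, …, y_m`. -/
def HomC (d : ℕ) (G : MvPolynomial (Fin n) (MvPolynomial (Fin (m + 1)) ℂ)) : Prop :=
  ∀ α, (coeff α G).IsHomogeneous d

/-- Homogeneous coordinates of the points of the quasi-projective variety `B` in `P^m` where all
forms `H i` vanish and some form `Q j` does not. -/
def BPts (H : ι → MvPolynomial (Fin (m + 1)) ℂ) (Q : κ → MvPolynomial (Fin (m + 1)) ℂ) :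
    Set (Fin (m + 1) → ℂ) :=
  {y | y ≠ 0 ∧ (∀ i, eval y (H i) = 0) ∧ ∃ j, eval y (Q j) ≠ 0}

/-- The points of the closed subset `X` of `B × G_m^n` where all `F i` vanish; the first component
is a vector of homogeneous coordinates of the point of `B`. -/
def XPts (H : ι → MvPolynomial (Fin (m + 1)) ℂ) (Q : κ → MvPolynomial (Fin (m + 1)) ℂ)
    (F : τ → MvPolynomial (Fin n) (MvPolynomial (Fin (m + 1)) ℂ)) :
    Set ((Fin (m + 1) → ℂ) × (Fin n → ℂ)) :=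
  {x | x.1 ∈ BPts H Q ∧ (∀ j, x.2 j ≠ 0) ∧ ∀ i, val x (F i) = 0}

/-- `b` is the vector of homogeneous coordinates of a holomorphic map from the punctured disc
to `B`. -/
def BCurve (H : ι → MvPolynomial (Fin (m + 1)) ℂ) (Q : κ → MvPolynomial (Fin (m + 1)) ℂ)
    (b : ℂ → Fin (m + 1) → ℂ) : Prop :=
  DifferentiableOn ℂ b (ball 0 1 \ {0}) ∧ ∀ z ∈ ball (0 : ℂ) 1 \ {0}, b z ∈ BPts H Q

/-- `f` describes a holomorphic map from the punctured disc to `X`. -/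
def XCurve (H : ι → MvPolynomial (Fin (m + 1)) ℂ) (Q : κ → MvPolynomial (Fin (m + 1)) ℂ)
    (F : τ → MvPolynomial (Fin n) (MvPolynomial (Fin (m + 1)) ℂ))
    (f : ℂ → (Fin (m + 1) → ℂ) × (Fin n → ℂ)) : Prop :=
  DifferentiableOn ℂ f (ball 0 1 \ {0}) ∧ ∀ z ∈ ball (0 : ℂ) 1 \ {0}, f z ∈ XPts H Q F

/-- The map `f` from the punctured disc extends to a holomorphic map from the disc to
`P^m × (P^1)^n`. -/
def ExtX (f : ℂ → (Fin (m + 1) → ℂ) × (Fin n → ℂ)) : Prop :=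
  Extends (fun w => (f w).1) ∧ ∀ j, MeromorphicAt (fun w => (f w).2 j) 0

/-- `f` describes an entire curve in `X`: a nonconstant holomorphic map from the complex plane. -/
def EntX (H : ι → MvPolynomial (Fin (m + 1)) ℂ) (Q : κ → MvPolynomial (Fin (m + 1)) ℂ)
    (F : τ → MvPolynomial (Fin n) (MvPolynomial (Fin (m + 1)) ℂ))
    (f : ℂ → (Fin (m + 1) → ℂ) × (Fin n → ℂ)) : Prop :=
  Differentiable ℂ f ∧ (∀ z, f z ∈ XPts H Q F) ∧
    ∃ z w, (f z).2 ≠ (f w).2 ∨ ∀ c : ℂ, (f z).1 ≠ c • (f w).1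

/-- The action of `t` through the one-parameter subgroup `t ↦ (t ^ β_j)_j` of `G_m^n`. -/
noncomputable def act (β : Fin n → ℤ) (t : ℂ) (x : (Fin (m + 1) → ℂ) × (Fin n → ℂ)) :
    (Fin (m + 1) → ℂ) × (Fin n → ℂ) :=
  (x.1, fun j => t ^ β j * x.2 j)

/-- The union of the images of all holomorphic maps from the punctured disc to `X` with an
essential singularity. -/
def picPts (H : ι → MvPolynomial (Fin (m + 1)) ℂ) (Q : κ → MvPolynomial (Fin (m + 1)) ℂ)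
    (F : τ → MvPolynomial (Fin n) (MvPolynomial (Fin (m + 1)) ℂ)) :
    Set ((Fin (m + 1) → ℂ) × (Fin n → ℂ)) :=
  {x | ∃ f z, XCurve H Q F f ∧ ¬ ExtX f ∧ z ∈ ball (0 : ℂ) 1 \ {0} ∧ f z = x}

/-- The union of the images of all entire curves in `X`. -/
def entPts (H : ι → MvPolynomial (Fin (m + 1)) ℂ) (Q : κ → MvPolynomial (Fin (m + 1)) ℂ)
    (F : τ → MvPolynomial (Fin n) (MvPolynomial (Fin (m + 1)) ℂ)) :
    Set ((Fin (m + 1) → ℂ) × (Fin n → ℂ)) :=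
  {x | ∃ f z, EntX H Q F f ∧ f z = x}

/-- The union of all translates of one-dimensional subtori of `G_m^n` that lie in fibres of
`X → B`. -/
def orbPts (H : ι → MvPolynomial (Fin (m + 1)) ℂ) (Q : κ → MvPolynomial (Fin (m + 1)) ℂ)
    (F : τ → MvPolynomial (Fin n) (MvPolynomial (Fin (m + 1)) ℂ)) :
    Set ((Fin (m + 1) → ℂ) × (Fin n → ℂ)) :=
  {x | x ∈ XPts H Q F ∧ ∃ β : Fin n → ℤ, β ≠ 0 ∧ ∀ t : ℂ, t ≠ 0 → act β t x ∈ XPts H Q F}

/-- `X` is irreducible. -/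
def Irr (H : ι → MvPolynomial (Fin (m + 1)) ℂ) (Q : κ → MvPolynomial (Fin (m + 1)) ℂ)
    (F : τ → MvPolynomial (Fin n) (MvPolynomial (Fin (m + 1)) ℂ)) : Prop :=
  (XPts H Q F).Nonempty ∧ ∀ G G', (∃ d, HomC d G) → (∃ d, HomC d G') →
    (∀ x ∈ XPts H Q F, val x G * val x G' = 0) →
      (∀ x ∈ XPts H Q F, val x G = 0) ∨ ∀ x ∈ XPts H Q F, val x G' = 0

/-- `X` is pseudo-Picard hyperbolic. -/
def PseudoPicardX (H : ι → MvPolynomial (Fin (m + 1)) ℂ) (Q : κ → MvPolynomial (Fin (m + 1)) ℂ)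
    (F : τ → MvPolynomial (Fin n) (MvPolynomial (Fin (m + 1)) ℂ)) : Prop :=
  ∃ G, (∃ d, HomC d G) ∧ (∃ x ∈ XPts H Q F, val x G ≠ 0) ∧
    ∀ f, XCurve H Q F f → (∃ z ∈ ball (0 : ℂ) 1 \ {0}, val (f z) G ≠ 0) → ExtX f

/-- `X` is pseudo-Brody hyperbolic. -/
def PseudoBrodyX (H : ι → MvPolynomial (Fin (m + 1)) ℂ) (Q : κ → MvPolynomial (Fin (m + 1)) ℂ)
    (F : τ → MvPolynomial (Fin n) (MvPolynomial (Fin (m + 1)) ℂ)) : Prop :=
  ∃ G, (∃ d, HomC d G) ∧ (∃ x ∈ XPts H Q F, val x G ≠ 0) ∧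
    ∀ f, EntX H Q F f → ∀ z, val (f z) G = 0

end Pool.Agent.W603.BT
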