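import Pool.Agent.W603.BT.Defs

/-!
Closed subvarieties of `B × G_m^n` for a Picard hyperbolic quasi-projective variety `B`.
-/

set_option autoImplicit false

namespace Pool.Agent.W603.BT

open MvPolynomial Filter Metric Topology Pool.Agent.W603.BP

variable {m n : ℕ} {ι κ τ : Type} {H : ι → MvPolynomial (Fin (m + 1)) ℂ}
  {Q : κ → MvPolynomial (Fin (m + 1)) ℂ}
  {F : τ → MvPolynomial (Fin n) (MvPolynomial (Fin (m + 1)) ℂ)}

theorem val_mul (x : (Fin (m + 1) → ℂ) × (Fin n → ℂ))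
    (G G' : MvPolynomial (Fin n) (MvPolynomial (Fin (m + 1)) ℂ)) :
    val x (G * G') = val x G * val x G' := eval₂_mul _ _

theorem val_prod {σ : Type} (s : Finset σ) (x : (Fin (m + 1) → ℂ) × (Fin n → ℂ))
    (G : σ → MvPolynomial (Fin n) (MvPolynomial (Fin (m + 1)) ℂ)) :
    val x (∏ k ∈ s, G k) = ∏ k ∈ s, val x (G k) := by
  classical
  unfold val
  exact eval₂_prod _ _ _ _

theorem HomC.mul {d e : ℕ} {G G' : MvPolynomial (Fin n) (MvPolynomial (Fin (m + 1)) ℂ)}
    (h : HomC d G) (h' : HomC e G') : HomC (d + e) (G * G') := by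
  intro α
  rw [coeff_mul]
  apply IsHomogeneous.sum
  intro p _
  exact (h _).mul (h' _)

theorem homC_one : HomC 0 (1 : MvPolynomial (Fin n) (MvPolynomial (Fin (m + 1)) ℂ)) := by
  intro α
  classical
  rw [coeff_one]
  split_ifs
  · exact isHomogeneous_one _ _
  · exact isHomogeneous_zero _ _ _

theorem homC_prod {σ : Type} (s : Finset σ)
    (G : σ → MvPolynomial (Fin n) (MvPolynomial (Fin (m + 1)) ℂ))
    (h : ∀ k ∈ s, ∃ d, HomC d (G k)) : ∃ d, HomC d (∏ k ∈ s, G k) := by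
  classical
  induction s using Finset.induction_on with
  | empty => exact ⟨0, by rw [Finset.prod_empty]; exact homC_one⟩
  | insert a s ha ih =>
    obtain ⟨d, hd⟩ := h a (Finset.mem_insert_self _ _)
    obtain ⟨e, he⟩ := ih fun k hk => h k (Finset.mem_insert_of_mem hk)
    exact ⟨d + e, by rw [Finset.prod_insert ha]; exact hd.mul he⟩

/-- the part of `G` of weight `v` -/
noncomputable def blk (β : Fin n → ℤ) (v : ℤ)
    (G : MvPolynomial (Fin n) (MvPolynomial (Fin (m + 1)) ℂ)) :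
    MvPolynomial (Fin n) (MvPolynomial (Fin (m + 1)) ℂ) :=
  ∑ α ∈ G.support.filter (fun α => ∑ j, (α j : ℤ) * β j = v), monomial α (coeff α G)

theorem homC_blk {d : ℕ} {G : MvPolynomial (Fin n) (MvPolynomial (Fin (m + 1)) ℂ)}
    (h : HomC d G) (β : Fin n → ℤ) (v : ℤ) : HomC d (blk β v G) := by
  classical
  intro α
  unfold blk
  rw [coeff_sum]
  apply IsHomogeneous.sum
  intro γ _
  rw [coeff_monomial]
  split_ifs
  · exact h _
  · exact isHomogeneous_zero _ _ _

theorem val_eq (x : (Fin (m + 1) → ℂ) × (Fin n → ℂ))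
    (G : MvPolynomial (Fin n) (MvPolynomial (Fin (m + 1)) ℂ)) :
    val x G = ∑ α ∈ G.support, eval x.1 (coeff α G) * ∏ j, x.2 j ^ α j := by
  unfold val
  rw [eval₂_eq']

theorem val_blk (x : (Fin (m + 1) → ℂ) × (Fin n → ℂ)) (β : Fin n → ℤ) (v : ℤ)
    (G : MvPolynomial (Fin n) (MvPolynomial (Fin (m + 1)) ℂ)) :
    val x (blk β v G) = ∑ α ∈ G.support.filter (fun α => ∑ j, (α j : ℤ) * β j = v),
      eval x.1 (coeff α G) * ∏ j, x.2 j ^ α j := by
  unfold val blk
  rw [eval₂_sum]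
  refine Finset.sum_congr rfl fun α _ => ?_
  rw [eval₂_monomial, Finsupp.prod_fintype _ _ (by simp)]

theorem zpow_sum_fin {σ : Type} (s : Finset σ) {t : ℂ} (ht : t ≠ 0) (a : σ → ℤ) :
    ∏ j ∈ s, t ^ a j = t ^ ∑ j ∈ s, a j := by
  classical
  induction s using Finset.induction_on with
  | empty => simp
  | insert b s hb ih => rw [Finset.prod_insert hb, Finset.sum_insert hb, ih, zpow_add₀ ht]

/-- the value at a translate -/
theorem val_act (x : (Fin (m + 1) → ℂ) × (Fin n → ℂ)) (β : Fin n → ℤ) {t : ℂ} (ht : t ≠ 0)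
    (G : MvPolynomial (Fin n) (MvPolynomial (Fin (m + 1)) ℂ)) :
    val (act β t x) G = ∑ v ∈ G.support.image (fun α => ∑ j, (α j : ℤ) * β j),
      t ^ v * val x (blk β v G) := by
  classical
  rw [val_eq]
  rw [← Finset.sum_fiberwise_of_maps_to (g := fun α => ∑ j, (α j : ℤ) * β j)
    (fun α hα => Finset.mem_image_of_mem (fun α : Fin n →₀ ℕ => ∑ j, (α j : ℤ) * β j) hα)]
  refine Finset.sum_congr rfl fun v _ => ?_
  rw [val_blk, Finset.mul_sum]
  refine Finset.sum_congr rfl fun α hα => ?_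
  rw [← (Finset.mem_filter.mp hα).2]
  have h1 : ∏ j, (act β t x).2 j ^ α j = t ^ (∑ j, (α j : ℤ) * β j) * ∏ j, x.2 j ^ α j := by
    unfold act
    simp only [mul_pow]
    rw [Finset.prod_mul_distrib]
    congr 1
    rw [← zpow_sum_fin _ ht]
    refine Finset.prod_congr rfl fun j _ => ?_
    rw [← zpow_natCast, ← zpow_mul, mul_comm]
  rw [h1]
  change eval x.1 _ * _ = _
  ring

/-- a Laurent polynomial that vanishes on the punctured plane is zero -/
theorem laurent_zero (V : Finset ℤ) (a : ℤ → ℂ) (h : ∀ t : ℂ, t ≠ 0 → ∑ v ∈ V, t ^ v * a v = 0) :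
    ∀ v ∈ V, a v = 0 := by
  let χ : ℤ → (ℂˣ →* ℂ) := fun v => (Units.coeHom ℂ).comp (zpowGroupHom v)
  have hinj : Function.Injective χ := by
    intro v v' hv
    have h1 := DFunLike.congr_fun hv (Units.mk0 2 two_ne_zero)
    simp only [χ, MonoidHom.comp_apply, zpowGroupHom_apply, Units.coeHom_apply, Units.val_zpow_eq_zpow_val,
      Units.val_mk0] at h1
    exact two_pow_inj h1
  have hli := (linearIndependent_monoidHom ℂˣ ℂ).comp χ hinj
  rw [linearIndependent_iff'] at hli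
  have h2 := hli V a (by
    funext t
    simp only [Finset.sum_apply, Pi.smul_apply, Function.comp_apply, smul_eq_mul, Pi.zero_apply]
    rw [← h t t.ne_zero]
    refine Finset.sum_congr rfl fun v _ => ?_
    simp only [χ, MonoidHom.comp_apply, zpowGroupHom_apply, Units.coeHom_apply,
      Units.val_zpow_eq_zpow_val]
    ring)
  exact h2

/-- a point lies in a translate contained in `X` if and only if all blocks vanish -/
theorem orbit_iff {x : (Fin (m + 1) → ℂ) × (Fin n → ℂ)} (hx : x ∈ XPts H Q F) (β : Fin n → ℤ) :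
    (∀ t : ℂ, t ≠ 0 → act β t x ∈ XPts H Q F) ↔ ∀ i, ∀ v : ℤ, val x (blk β v (F i)) = 0 := by
  constructor
  · intro h i v
    by_cases hv : v ∈ (F i).support.image (fun α => ∑ j, (α j : ℤ) * β j)
    · refine laurent_zero _ (fun v => val x (blk β v (F i))) (fun t ht => ?_) v hv
      rw [← val_act x β ht]
      exact (h t ht).2.2 i
    · rw [val_blk]
      apply Finset.sum_eq_zero
      intro α hα
      exfalso
      apply hv
      rw [Finset.mem_filter] at hα
      rw [← hα.2]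
      exact Finset.mem_image_of_mem (fun α : Fin n →₀ ℕ => ∑ j, (α j : ℤ) * β j) hα.1
  · intro h t ht
    refine ⟨hx.1, fun j => mul_ne_zero (zpow_ne_zero _ ht) (hx.2.1 j), fun i => ?_⟩
    rw [val_act x β ht]
    exact Finset.sum_eq_zero fun v _ => by rw [h i v, mul_zero]

theorem XCurve.base {f : ℂ → (Fin (m + 1) → ℂ) × (Fin n → ℂ)} (hf : XCurve H Q F f) :
    BCurve H Q (fun w => (f w).1) :=
  ⟨hf.1.fst, fun z hz => (hf.2 z hz).1⟩

theorem XCurve.an {f : ℂ → (Fin (m + 1) → ℂ) × (Fin n → ℂ)} (hf : XCurve H Q F f) (j : Fin n) :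
    AnalyticOnNhd ℂ (fun w => (f w).2 j) (PB 1) := by
  intro w hw
  have h1 : DifferentiableOn ℂ (fun w => (f w).2 j) (ball 0 1 \ {0}) := by
    intro z hz
    exact (differentiableWithinAt_pi.mp (hf.1.snd z hz)) j
  exact h1.analyticAt (disc_open.mem_nhds (mem_disc.mpr hw))

theorem XCurve.an1 {f : ℂ → (Fin (m + 1) → ℂ) × (Fin n → ℂ)} (hf : XCurve H Q F f)
    (j : Fin (m + 1)) : AnalyticOnNhd ℂ (fun w => (f w).1 j) (PB 1) := by
  intro w hw
  have h1 : DifferentiableOn ℂ (fun w => (f w).1 j) (ball 0 1 \ {0}) := by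
    intro z hz
    exact (differentiableWithinAt_pi.mp (hf.1.fst z hz)) j
  exact h1.analyticAt (disc_open.mem_nhds (mem_disc.mpr hw))

theorem an_eval {k : ℕ} {g : ℂ → Fin k → ℂ} {w : ℂ} (hg : ∀ j, AnalyticAt ℂ (fun w => g w j) w)
    (P : MvPolynomial (Fin k) ℂ) : AnalyticAt ℂ (fun w => eval (g w) P) w := by
  simp only [eval_eq']
  apply Finset.analyticAt_fun_sum
  intro α _
  apply AnalyticAt.fun_mul analyticAt_const
  apply Finset.analyticAt_fun_prod
  intro j _
  exact (hg j).fun_pow _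

theorem val_an {f : ℂ → (Fin (m + 1) → ℂ) × (Fin n → ℂ)} (hf : XCurve H Q F f)
    (G : MvPolynomial (Fin n) (MvPolynomial (Fin (m + 1)) ℂ)) :
    AnalyticOnNhd ℂ (fun w => val (f w) G) (PB 1) := by
  intro w hw
  simp only [val_eq]
  apply Finset.analyticAt_fun_sum
  intro α _
  apply AnalyticAt.fun_mul (an_eval (fun j => hf.an1 j w hw) _)
  apply Finset.analyticAt_fun_prod
  intro j _
  exact (hf.an j w hw).fun_pow _

/-- A holomorphic map from the punctured disc to `X` whose first component extends and which does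
not extend lies in the union of the translates. -/
theorem pic_orb (hF : ∀ i, ∃ d, HomC d (F i)) {f : ℂ → (Fin (m + 1) → ℂ) × (Fin n → ℂ)}
    (hf : XCurve H Q F f) (hb : Extends (fun w => (f w).1)) (hE : ¬ ExtX f) :
    ∃ β : Fin n → ℤ, β ≠ 0 ∧ ∀ z ∈ PB 1, ∀ i, ∀ v : ℤ, val (f z) (blk β v (F i)) = 0 := by
  classical
  obtain ⟨j0, hj0⟩ : ∃ j, ¬ MeromorphicAt (fun w => (f w).2 j) 0 := by
    by_contra hcon
    push Not at hcon
    exact hE ⟨hb, hcon⟩
  have hX : ∀ w ∈ PB 1, f w ∈ XPts H Q F := fun w hw => hf.2 w (mem_disc.mpr hw)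
  let φ : Fin n → ℂ → ℂ := fun j w => (f w).2 j
  have hP : ∀ j, Pun (φ j) := fun j => on_pun one_pos (hf.an j)
  have hne : ∀ j, ∀ᶠ w in 𝓝[≠] (0 : ℂ), φ j w ≠ 0 := by
    intro j
    filter_upwards [PB_mem one_pos] with w hw
    exact (hX w hw).2.1 j
  have hNz : ∀ j, Nz (φ j) := by
    intro j h0
    obtain ⟨w, h1, h2⟩ := (h0.and (hne j)).exists
    exact h2 h1
  have hnot : (Pi.single j0 1 : Fin n → ℤ) ∉ Mon φ := by
    rintro ⟨-, ρ, hρ, h2⟩
    apply hj0
    refine hρ.congr ?_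
    have hall : ∀ᶠ w in 𝓝[≠] (0 : ℂ), ∀ j, φ j w ≠ 0 := by
      rw [Filter.eventually_all]
      exact hne
    filter_upwards [h2, hall] with w h3 h4
    rw [← h3 fun j _ => h4 j]
    rw [Finset.prod_eq_single j0]
    · simp [φ]
    · intro j _ hj
      simp [Pi.single_eq_of_ne hj]
    · intro h
      exact absurd (Finset.mem_univ _) h
  obtain ⟨β, hβ1, hβ2⟩ := exists_form (Mon φ) (Mon_sat φ hP) _ hnot
  have hβ0 : β ≠ 0 := by
    rintro rfl
    apply hβ2
    simp
  refine ⟨β, hβ0, ?_⟩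
  obtain ⟨g, hg1, hg2, hg3⟩ := hb
  have hga : ∀ j, AnalyticAt ℂ (fun w => g w j) 0 := by
    intro j
    have h1 : DifferentiableOn ℂ (fun w => g w j) (ball 0 1) := by
      intro z hz
      exact (differentiableWithinAt_pi.mp (hg1 z hz)) j
    exact h1.analyticAt (isOpen_ball.mem_nhds (mem_ball_self one_pos))
  suffices h : ∀ i (v : ℤ), ∀ z ∈ PB 1, val (f z) (blk β v (F i)) = 0 from
    fun z hz i v => h i v z hz
  intro i v
  obtain ⟨d, hd⟩ := hF i
  -- the relation with meromorphic coefficients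
  have hscale : ∀ w ∈ PB 1, ∃ c : ℂ, c ≠ 0 ∧ ∀ α, eval (f w).1 (coeff α (F i)) =
      c ^ d * eval (g w) (coeff α (F i)) := by
    intro w hw
    obtain ⟨c, hc⟩ := hg3 w (mem_disc.mpr hw)
    have hc' : (f w).1 = c • g w := hc
    refine ⟨c, ?_, fun α => ?_⟩
    · rintro rfl
      rw [zero_smul] at hc'
      exact (hX w hw).1.1 hc'
    · rw [hc']
      have h1 : (c • g w : Fin (m + 1) → ℂ) = fun j => c * g w j := rfl
      rw [h1, eval_eq', eval_eq', Finset.mul_sum]
      refine Finset.sum_congr rfl fun γ hγ => ?_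
      have h2 : ∑ a, γ a = d := by
        have := hd α (mem_support_iff.1 hγ)
        rw [← this, Finsupp.weight_apply, Finsupp.sum_fintype _ _ (by simp)]
        simp
      simp only [mul_pow]
      rw [Finset.prod_mul_distrib, Finset.prod_pow_eq_pow_sum, h2]
      ring
  let A := (F i).support
  let N : ℕ := (A.card - 1) ^ 2 + 1
  have hN0 : 0 < N := Nat.succ_pos _
  let e : (Fin n →₀ ℕ) → ℂ → ℂ := fun α w => ∏ j, φ j w ^ α j
  have heP : ∀ α, Pun (e α) := fun α => Pun.prod _ fun j _ => (hP j).pow _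
  have heN : ∀ α, Nz (e α) := fun α => Nz.prod _ (fun j _ => (hP j).pow _) fun j _ => (hNz j).pow _
  have heR : ∀ α, ∃ g : ℂ → ℂ, Pun g ∧ ∀ᶠ t in 𝓝[≠] (0 : ℂ), g t ^ N = e α (t ^ N) := by
    intro α
    apply root (heP α)
    have hall : ∀ᶠ w in 𝓝[≠] (0 : ℂ), ∀ j, φ j w ≠ 0 := by
      rw [Filter.eventually_all]
      exact hne
    · filter_upwards [hall] with w hw
      exact Finset.prod_ne_zero_iff.mpr fun j _ => pow_ne_zero _ (hw j)
    · exact hN0
  have hcol : ∀ α γ, Nz (e α) → Nz (e γ) → Gr (e α) (e γ) →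
      ∑ j, (α j : ℤ) * β j = ∑ j, (γ j : ℤ) * β j := by
    intro α γ hα hγ hg
    have h1 := hβ1 _ (Mon_of_gr (f := φ) hP (fun j => α j) (fun j => γ j) hα hγ hg)
    simp only [sub_mul, Finset.sum_sub_distrib] at h1
    linarith
  have hmain := color_sums hN0 e heP heR (fun α => ∑ j, (α j : ℤ) * β j) hcol A
    (Nat.le_succ _) (fun α w => eval (g w) (coeff α (F i)))
    (fun α => (an_eval hga _).meromorphicAt) (by
      filter_upwards [PB_mem one_pos] with w hw
      obtain ⟨c, hc, hce⟩ := hscale w hw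
      have h1 := (hX w hw).2.2 i
      rw [val_eq] at h1
      have h2 : c ^ d * ∑ α ∈ A, eval (g w) (coeff α (F i)) * e α w = 0 := by
        rw [← h1, Finset.mul_sum]
        refine Finset.sum_congr rfl fun α _ => ?_
        rw [hce α]
        ring
      exact (mul_eq_zero.mp h2).resolve_left (pow_ne_zero _ hc)) v
  apply eq_zero_on one_pos (val_an hf _)
  filter_upwards [hmain, PB_mem one_pos] with w hw hw1
  obtain ⟨c, hc, hce⟩ := hscale w hw1
  rw [val_blk]
  have h2 : ∑ α ∈ (F i).support.filter (fun α => ∑ j, (α j : ℤ) * β j = v),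
      eval (f w).1 (coeff α (F i)) * ∏ j, (f w).2 j ^ α j = c ^ d * 0 := by
    rw [← hw, Finset.mul_sum]
    refine Finset.sum_congr rfl fun α _ => ?_
    rw [hce α]
    ring
  rw [h2, mul_zero]

theorem exp_curve {x : (Fin (m + 1) → ℂ) × (Fin n → ℂ)} {β : Fin n → ℤ} (hβ : β ≠ 0)
    (hx : x ∈ XPts H Q F) (h : ∀ t : ℂ, t ≠ 0 → act β t x ∈ XPts H Q F) :
    EntX H Q F (fun z => act β (Complex.exp z) x) := by
  obtain ⟨j, hj⟩ := Function.ne_iff.mp hβ
  refine ⟨?_, fun z => h _ (Complex.exp_ne_zero z), 0, 1, Or.inl ?_⟩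
  · apply Differentiable.prodMk (differentiable_const _)
    rw [differentiable_pi]
    intro j z
    exact ((differentiableAt_zpow.mpr (Or.inl (Complex.exp_ne_zero z))).comp z
      Complex.differentiableAt_exp).mul_const _
  · intro h0
    have h1 := congrFun h0 j
    simp only [act, Complex.exp_zero, one_zpow, one_mul] at h1
    have h2 : Complex.exp 1 ^ β j = 1 := by
      have h3 := hx.2.1 j
      field_simp at h1
      exact h1.symm
    have h4 : Real.exp 1 ^ β j = 1 := by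
      have := congrArg norm h2
      rwa [norm_zpow, Complex.norm_exp, norm_one, Complex.one_re] at this
    have h5 : (1 : ℝ) < Real.exp 1 := by
      have := Real.add_one_lt_exp (one_ne_zero (α := ℝ))
      linarith
    exact hj ((zpow_eq_one_iff_right₀ (Real.exp_pos 1).le h5.ne').mp h4)

/-- `sin (1 / w)` takes every value frequently near the origin -/
theorem sin_freq (s : ℂ) : ∃ᶠ w in 𝓝[≠] (0 : ℂ), Complex.sin w⁻¹ = s := by
  rw [Filter.frequently_iff]
  intro U hU
  obtain ⟨δ, hδ, hU'⟩ := ev_iff.mp hU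
  obtain ⟨ζ, hζ⟩ := Complex.sin_surjective s
  obtain ⟨k, hk⟩ := exists_nat_gt (‖ζ‖ + δ⁻¹)
  have h2 : ‖(k : ℂ) * (2 * (Real.pi : ℂ))‖ = k * (2 * Real.pi) := by
    rw [norm_mul, norm_mul, Complex.norm_natCast, Complex.norm_real,
      Real.norm_of_nonneg Real.pi_pos.le]
    simp
  have h3 := norm_sub_norm_le ((k : ℂ) * (2 * (Real.pi : ℂ))) (-ζ)
  rw [norm_neg, sub_neg_eq_add, add_comm ((k : ℂ) * (2 * (Real.pi : ℂ))) ζ, h2] at h3
  have h4 : (k : ℝ) ≤ k * (2 * Real.pi) := by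
    apply le_mul_of_one_le_right (Nat.cast_nonneg k)
    have := Real.pi_gt_three
    linarith
  have h5 : δ⁻¹ < ‖ζ + k * (2 * (Real.pi : ℂ))‖ := by linarith
  have h6 : ζ + k * (2 * (Real.pi : ℂ)) ≠ 0 := by
    intro h0
    rw [h0, norm_zero] at h5
    have := inv_pos.mpr hδ
    linarith
  refine ⟨(ζ + k * (2 * (Real.pi : ℂ)))⁻¹, hU' _ ⟨inv_ne_zero h6, ?_⟩, ?_⟩
  · rw [norm_inv]
    exact inv_lt_of_inv_lt₀ hδ h5
  · rw [inv_inv, Complex.sin_add_nat_mul_two_pi, hζ]

theorem sin_not_mero {h : ℂ → ℂ} {s t : ℂ} (hst : h s ≠ h t) :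
    ¬ MeromorphicAt (fun w => h (Complex.sin w⁻¹)) 0 := by
  intro hm
  have key : ∀ s, ∀ᶠ w in 𝓝[≠] (0 : ℂ), h (Complex.sin w⁻¹) = h s := by
    intro s
    have h1 : MeromorphicAt (fun w => h (Complex.sin w⁻¹) - h s) 0 :=
      hm.fun_sub (MeromorphicAt.const _ _)
    rcases h1.eventually_eq_zero_or_eventually_ne_zero with h2 | h2
    · filter_upwards [h2] with w hw
      exact sub_eq_zero.mp hw
    · exfalso
      obtain ⟨w, hw1, hw2⟩ := ((sin_freq s).and_eventually h2).exists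
      apply hw2
      rw [hw1, sub_self]
  obtain ⟨w, h1, h2⟩ := ((key s).and (key t)).exists
  exact hst (h1.symm.trans h2)

/-- an entire curve in `X` gives a punctured disc with an essential singularity -/
theorem ent_pic {f : ℂ → (Fin (m + 1) → ℂ) × (Fin n → ℂ)} (hf : EntX H Q F f) :
    XCurve H Q F (fun w => f (Complex.sin w⁻¹)) ∧ ¬ ExtX (fun w => f (Complex.sin w⁻¹)) := by
  obtain ⟨hf1, hf2, s, t, hst⟩ := hf
  refine ⟨⟨?_, fun z _ => hf2 _⟩, ?_⟩
  · intro z hz
    have hz0 : z ≠ 0 := hz.2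
    exact ((hf1 _).comp z ((Complex.differentiable_sin _).comp z
      (differentiableAt_inv hz0))).differentiableWithinAt
  · rintro ⟨h1, h2⟩
    rcases hst with hst | hst
    · obtain ⟨j, hj⟩ := Function.ne_iff.mp hst
      exact sin_not_mero (h := fun z => (f z).2 j) hj (h2 j)
    · have h3 : Pool.Agent.H159R3.GGLLog.EntireCurve (∅ : Set (Fin (m + 1)))
          (fun e : Empty => e.elim) (fun z => (f z).1) :=
        ⟨hf1.fst, fun z => ⟨(hf2 z).1.1, fun j hj => absurd hj (Set.notMem_empty j),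
          fun e => e.elim⟩, s, t, hst⟩
      exact (sin_curve h3).2 h1

end Pool.Agent.W603.BT
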