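import Pool.Agent.W603.BT.Main

/-!
The special sets of closed subvarieties of `B × G_m^n`.
-/

set_option autoImplicit false

namespace Pool.Agent.W603.BT

open MvPolynomial Filter Metric Topology Pool.Agent.W603.BP

variable {m n : ℕ} {ι κ τ : Type} {H : ι → MvPolynomial (Fin (m + 1)) ℂ}
  {Q : κ → MvPolynomial (Fin (m + 1)) ℂ}
  {F : τ → MvPolynomial (Fin n) (MvPolynomial (Fin (m + 1)) ℂ)}

theorem pic_sub (hF : ∀ i, ∃ d, HomC d (F i)) (hB : ∀ b, BCurve H Q b → Extends b) :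
    picPts H Q F ⊆ orbPts H Q F := by
  rintro x ⟨f, z, hf, hE, hz, rfl⟩
  obtain ⟨β, hβ, h⟩ := pic_orb hF hf (hB _ hf.base) hE
  refine ⟨hf.2 z hz, β, hβ, ?_⟩
  rw [orbit_iff (hf.2 z hz)]
  exact fun i v => h z (mem_disc.mp hz) i v

theorem ent_sub_pic : entPts H Q F ⊆ picPts H Q F := by
  rintro x ⟨f, z, hf, rfl⟩
  obtain ⟨h1, h2⟩ := ent_pic hf
  obtain ⟨w, hw, hwz⟩ := sin_point z
  exact ⟨_, w, h1, h2, hw, by rw [hwz]⟩

theorem act_one (β : Fin n → ℤ) (x : (Fin (m + 1) → ℂ) × (Fin n → ℂ)) : act β 1 x = x := by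
  unfold act
  simp

theorem orb_sub_ent : orbPts H Q F ⊆ entPts H Q F := by
  rintro x ⟨hx, β, hβ, h⟩
  exact ⟨_, 0, exp_curve hβ hx h, by simp only [Complex.exp_zero, act_one]⟩

/-- The three special sets coincide. -/
theorem sets_eq (hF : ∀ i, ∃ d, HomC d (F i)) (hB : ∀ b, BCurve H Q b → Extends b) :
    picPts H Q F = orbPts H Q F ∧ entPts H Q F = orbPts H Q F :=
  ⟨(pic_sub hF hB).antisymm (orb_sub_ent.trans ent_sub_pic),
    (ent_sub_pic.trans (pic_sub hF hB)).antisymm orb_sub_ent⟩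

section closed

variable [Finite τ]

/-- the type of a one-parameter subgroup: which monomials of each equation have the same weight -/
def typ (F : τ → MvPolynomial (Fin n) (MvPolynomial (Fin (m + 1)) ℂ)) (β : Fin n → ℤ) :
    (i : τ) → Set ((F i).support × (F i).support) :=
  fun _ => {p | ∑ j, ((p.1 : Fin n →₀ ℕ) j : ℤ) * β j = ∑ j, ((p.2 : Fin n →₀ ℕ) j : ℤ) * β j}

theorem blk_of_typ {β γ : Fin n → ℤ} (h : typ F β = typ F γ) {x : (Fin (m + 1) → ℂ) × (Fin n → ℂ)}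
    (hx : ∀ i, ∀ v : ℤ, val x (blk β v (F i)) = 0) (i : τ) (v : ℤ) :
    val x (blk γ v (F i)) = 0 := by
  classical
  rw [val_blk]
  by_cases hv : ∃ α0 ∈ (F i).support, ∑ j, ((α0 : Fin n →₀ ℕ) j : ℤ) * γ j = v
  · obtain ⟨α0, hα0, rfl⟩ := hv
    rw [← hx i (∑ j, ((α0 : Fin n →₀ ℕ) j : ℤ) * β j), val_blk]
    refine Finset.sum_congr ?_ fun _ _ => rfl
    ext α
    rw [Finset.mem_filter, Finset.mem_filter]
    refine and_congr_right fun hα => ?_
    have h1 := congrFun h i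
    have h2 := Set.ext_iff.mp h1 (⟨α, hα⟩, ⟨α0, hα0⟩)
    exact h2.symm
  · push Not at hv
    rw [Finset.filter_false_of_mem hv, Finset.sum_empty]

/-- finitely many one-parameter subgroups suffice -/
theorem exists_reps : ∃ (K : Type) (_ : Fintype K) (b : K → Fin n → ℤ), (∀ k, b k ≠ 0) ∧
    ∀ x ∈ XPts H Q F, x ∈ orbPts H Q F ↔ ∃ k, ∀ i, ∀ v : ℤ, val x (blk (b k) v (F i)) = 0 := by
  classical
  have hfin : Finite ((i : τ) → Set ((F i).support × (F i).support)) := inferInstance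
  let K := {T : (i : τ) → Set ((F i).support × (F i).support) // ∃ β : Fin n → ℤ, β ≠ 0 ∧
    typ F β = T}
  have hK : Finite K := inferInstance
  refine ⟨K, Fintype.ofFinite K, fun k => k.2.choose, fun k => k.2.choose_spec.1, fun x hx => ?_⟩
  constructor
  · rintro ⟨-, β, hβ, h⟩
    let k : K := ⟨typ F β, β, hβ, rfl⟩
    refine ⟨k, ?_⟩
    rw [orbit_iff hx] at h
    exact fun i v => blk_of_typ (k.2.choose_spec.2).symm h i v
  · rintro ⟨k, hk⟩
    refine ⟨hx, _, k.2.choose_spec.1, ?_⟩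
    rw [orbit_iff hx]
    exact hk

/-- the union of the translates is closed -/
theorem orb_closed (hF : ∀ i, ∃ d, HomC d (F i)) :
    ∃ 𝒢 : Set (MvPolynomial (Fin n) (MvPolynomial (Fin (m + 1)) ℂ)),
      (∀ G ∈ 𝒢, ∃ d, HomC d G) ∧
      ∀ x ∈ XPts H Q F, x ∈ orbPts H Q F ↔ ∀ G ∈ 𝒢, val x G = 0 := by
  classical
  obtain ⟨K, _, b, hb, h⟩ := exists_reps (H := H) (Q := Q) (F := F)
  refine ⟨{G | ∃ c : K → τ × ℤ, G = ∏ k, blk (b k) (c k).2 (F (c k).1)}, ?_, fun x hx => ?_⟩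
  · rintro G ⟨c, rfl⟩
    exact homC_prod _ _ fun k _ => (hF (c k).1).imp fun d hd => homC_blk hd _ _
  · rw [h x hx]
    constructor
    · rintro ⟨k, hk⟩ G ⟨c, rfl⟩
      rw [val_prod]
      exact Finset.prod_eq_zero (Finset.mem_univ k) (hk _ _)
    · intro h1
      by_contra hcon
      push Not at hcon
      choose i v hiv using hcon
      have h2 := h1 _ ⟨fun k => (i k, v k), rfl⟩
      rw [val_prod] at h2
      obtain ⟨k, -, hk⟩ := Finset.prod_eq_zero_iff.mp h2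
      exact hiv k hk

theorem picard_iff' (hF : ∀ i, ∃ d, HomC d (F i)) (hB : ∀ b, BCurve H Q b → Extends b) :
    PseudoPicardX H Q F ↔ ∃ G, (∃ d, HomC d G) ∧ (∃ x ∈ XPts H Q F, val x G ≠ 0) ∧
      ∀ x ∈ orbPts H Q F, val x G = 0 := by
  obtain ⟨h1, -⟩ := sets_eq hF hB
  constructor
  · rintro ⟨G, hG, hn, h⟩
    refine ⟨G, hG, hn, fun x hx => ?_⟩
    rw [← h1] at hx
    obtain ⟨f, z, hf, hE, hz, rfl⟩ := hx
    by_contra h0
    exact hE (h f hf ⟨z, hz, h0⟩)
  · rintro ⟨G, hG, hn, h⟩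
    refine ⟨G, hG, hn, ?_⟩
    rintro f hf ⟨z, hz, h0⟩
    by_contra hE
    apply h0
    apply h
    rw [← h1]
    exact ⟨f, z, hf, hE, hz, rfl⟩

theorem brody_iff' (hF : ∀ i, ∃ d, HomC d (F i)) (hB : ∀ b, BCurve H Q b → Extends b) :
    PseudoBrodyX H Q F ↔ ∃ G, (∃ d, HomC d G) ∧ (∃ x ∈ XPts H Q F, val x G ≠ 0) ∧
      ∀ x ∈ orbPts H Q F, val x G = 0 := by
  obtain ⟨-, h1⟩ := sets_eq hF hB
  constructor
  · rintro ⟨G, hG, hn, h⟩
    refine ⟨G, hG, hn, fun x hx => ?_⟩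
    rw [← h1] at hx
    obtain ⟨f, z, hf, rfl⟩ := hx
    exact h f hf z
  · rintro ⟨G, hG, hn, h⟩
    refine ⟨G, hG, hn, fun f hf z => ?_⟩
    apply h
    rw [← h1]
    exact ⟨f, z, hf, rfl⟩

theorem irr_prod (hI : Irr H Q F) {σ : Type} (s : Finset σ)
    (G : σ → MvPolynomial (Fin n) (MvPolynomial (Fin (m + 1)) ℂ))
    (hG : ∀ k ∈ s, ∃ d, HomC d (G k)) (hne : ∀ k ∈ s, ∃ x ∈ XPts H Q F, val x (G k) ≠ 0) :
    ∃ x ∈ XPts H Q F, val x (∏ k ∈ s, G k) ≠ 0 := by
  classical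
  induction s using Finset.induction_on with
  | empty =>
    obtain ⟨x, hx⟩ := hI.1
    refine ⟨x, hx, ?_⟩
    rw [Finset.prod_empty]
    unfold val
    rw [eval₂_one]
    exact one_ne_zero
  | insert a s ha ih =>
    have h1 := ih (fun k hk => hG k (Finset.mem_insert_of_mem hk))
      (fun k hk => hne k (Finset.mem_insert_of_mem hk))
    by_contra hcon
    push Not at hcon
    obtain ⟨x, hx, hx'⟩ := h1
    obtain ⟨y, hy, hy'⟩ := hne a (Finset.mem_insert_self _ _)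
    rcases hI.2 (G a) (∏ k ∈ s, G k) (hG a (Finset.mem_insert_self _ _))
      (homC_prod _ _ fun k hk => hG k (Finset.mem_insert_of_mem hk)) (fun z hz => by
        have h2 := hcon z hz
        rwa [Finset.prod_insert ha, val_mul] at h2) with h2 | h2
    · exact hy' (h2 y hy)
    · exact hx' (h2 x hx)

/-- `X` is pseudo-Picard hyperbolic if and only if no one-parameter subgroup preserves it. -/
theorem main_iff (hF : ∀ i, ∃ d, HomC d (F i)) (hB : ∀ b, BCurve H Q b → Extends b)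
    (hI : Irr H Q F) :
    (PseudoPicardX H Q F ↔ PseudoBrodyX H Q F) ∧ (PseudoPicardX H Q F ↔
      ∀ β : Fin n → ℤ, (∀ x ∈ XPts H Q F, ∀ t : ℂ, t ≠ 0 → act β t x ∈ XPts H Q F) → β = 0) := by
  classical
  refine ⟨(picard_iff' hF hB).trans (brody_iff' hF hB).symm, (picard_iff' hF hB).trans ?_⟩
  constructor
  · rintro ⟨G, -, ⟨x, hx, hn⟩, h⟩ β hβ
    by_contra h0
    exact hn (h x ⟨hx, β, h0, hβ x hx⟩)
  · intro h
    obtain ⟨K, _, b, hb, hreps⟩ := exists_reps (H := H) (Q := Q) (F := F)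
    have h1 : ∀ k, ∃ (i : τ) (v : ℤ), ∃ x ∈ XPts H Q F, val x (blk (b k) v (F i)) ≠ 0 := by
      intro k
      by_contra hcon
      push Not at hcon
      apply hb k
      apply h
      intro x hx
      rw [orbit_iff hx]
      exact fun i v => hcon i v x hx
    choose i v hiv using h1
    refine ⟨∏ k, blk (b k) (v k) (F (i k)),
      homC_prod _ _ fun k _ => (hF (i k)).imp fun d hd => homC_blk hd _ _,
      irr_prod hI _ _ (fun k _ => (hF (i k)).imp fun d hd => homC_blk hd _ _)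
        (fun k _ => hiv k), ?_⟩
    intro x hx
    obtain ⟨k, hk⟩ := (hreps x hx.1).mp hx
    rw [val_prod]
    exact Finset.prod_eq_zero (Finset.mem_univ k) (hk _ _)

end closed

/-- All punctured discs extend if and only if there is no entire curve. -/
theorem picard_iff (hF : ∀ i, ∃ d, HomC d (F i)) (hB : ∀ b, BCurve H Q b → Extends b) :
    (∀ f, XCurve H Q F f → ExtX f) ↔ ∀ f, ¬ EntX H Q F f := by
  constructor
  · intro h f hf
    exact (ent_pic hf).2 (h _ (ent_pic hf).1)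
  · intro h f hf
    by_contra hE
    have hz : (1 / 2 : ℂ) ∈ ball (0 : ℂ) 1 \ {0} := by
      refine ⟨?_, by simp⟩
      rw [mem_ball, dist_zero_right]
      norm_num
    obtain ⟨g, z, hg, -⟩ := orb_sub_ent (pic_sub hF hB ⟨f, _, hf, hE, hz, rfl⟩)
    exact h g hg

end Pool.Agent.W603.BT
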